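import Pool.Agent.Run7.h802.FH.HypMain2
import Pool.Agent.Run7.h802.FH.Pieces2
import Pool.Agent.Run7.h802.FH.HypPiece
import Pool.Agent.Run7.h802.FH.ClsPiece

/-! Frey's inequality, with half of Frey's slope, for the Jacobians of almost all hyperelliptic curves
over the rationals.
A project led by helper802; pieces by helper216, helper212, helper771, helper799, helper321,
helper351, helper580, and the theorem on radicals of helper742 (and, from an earlier project, by
helper115, helper216, helper468, helper590, helper633, helper796, helper882). -/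

set_option autoImplicit false

namespace Pool.Agent.Results.MP_c59389_nt.HyperellipticJacobians

open MvPolynomial MeasureTheory

/-- The form `∑ a_k z^(D - k) x^k`, where `z = X 0` and `x = X 1`. -/
noncomputable def binaryForm {R : Type} [CommRing R] {D : ℕ} (a : Fin (D + 1) → R) :
    MvPolynomial (Fin 2) R :=
  ∑ k, C (a k) * (X 0 ^ (D - (k : ℕ)) * X 1 ^ (k : ℕ))

/-- `(x, y)`, `x = (x_0, x_1)`, is a singular zero of the equation `y² + q(x) y = p(x)` of a curve in
the weighted projective plane, where `q` and `p` are the forms of degree `g + 1` and `2 g + 2` with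
the given coefficients. -/
def IsSingularPoint {R : Type} [CommRing R] {g : ℕ} (q : Fin (g + 2) → R)
    (p : Fin (2 * g + 3) → R) (x : Fin 2 → R) (y : R) : Prop :=
  y ^ 2 + eval x (binaryForm q) * y = eval x (binaryForm p) ∧
    2 * y + eval x (binaryForm q) = 0 ∧
    ∀ i, eval x (pderiv i (binaryForm q)) * y = eval x (pderiv i (binaryForm p))

/-- The curve `y² + q(x) y = p(x)` over the rationals is smooth. -/
def IsSmooth {g : ℕ} (q : Fin (g + 2) → ℤ) (p : Fin (2 * g + 3) → ℤ) : Prop :=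
  ∀ (k : Type) [Field k] [CharZero k] (x : Fin 2 → k) (y : k), x ≠ 0 →
    ¬ IsSingularPoint (fun i => ((q i : ℤ) : k)) (fun j => ((p j : ℤ) : k)) x y

/-- The curve `y² + q(x) y = p(x)` modulo `l` is smooth. -/
def HasGoodReduction {g : ℕ} (q : Fin (g + 2) → ℤ) (p : Fin (2 * g + 3) → ℤ) (l : ℕ) : Prop :=
  ∀ (k : Type) [Field k] [CharP k l] (x : Fin 2 → k) (y : k), x ≠ 0 →
    ¬ IsSingularPoint (fun i => ((q i : ℤ) : k)) (fun j => ((p j : ℤ) : k)) x y

/-- The curve `y² + q(x) y = p(x)` modulo `l` has exactly one singular point over the algebraic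
closure; it is a rational point `(1, x_1, y)`, and it is an ordinary double point: the determinant of
the second partial derivatives with respect to `x_1` and `y` is not zero. -/
def HasOneNode {g : ℕ} (q : Fin (g + 2) → ℤ) (p : Fin (2 * g + 3) → ℤ) (l : ℕ) : Prop :=
  ∃ (x : Fin 2 → ℤ) (y : ℤ), x 0 = 1 ∧
    (l : ℤ) ∣ y ^ 2 + eval x (binaryForm q) * y - eval x (binaryForm p) ∧
    (l : ℤ) ∣ 2 * y + eval x (binaryForm q) ∧
    (l : ℤ) ∣ eval x (pderiv 1 (binaryForm q)) * y - eval x (pderiv 1 (binaryForm p)) ∧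
    ¬ (l : ℤ) ∣ 2 * (eval x (pderiv 1 (pderiv 1 (binaryForm q))) * y -
      eval x (pderiv 1 (pderiv 1 (binaryForm p)))) - eval x (pderiv 1 (binaryForm q)) ^ 2 ∧
    ∀ (k : Type) [Field k] [CharP k l] (x' : Fin 2 → k) (y' : k), x' ≠ 0 →
      IsSingularPoint (fun i => ((q i : ℤ) : k)) (fun j => ((p j : ℤ) : k)) x' y' →
        x' 1 = x' 0 * ((x 1 : ℤ) : k) ∧ y' = x' 0 ^ (g + 1) * ((y : ℤ) : k)

/-- The curve over the integers with the equation `y² + q(x) y = p(x)` is smooth over the rationals,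
and modulo each prime it is smooth or has one ordinary double point. -/
def IsSemistable {g : ℕ} (q : Fin (g + 2) → ℤ) (p : Fin (2 * g + 3) → ℤ) : Prop :=
  IsSmooth q p ∧ ∀ l : ℕ, l.Prime → HasGoodReduction q p l ∨ HasOneNode q p l

/-- The product of the primes of bad reduction. For `IsSemistable q p` this is the conductor of the
Jacobian: the reduction of the Jacobian at such a prime is an extension of an abelian variety of
dimension `g - 1` by a torus of dimension one, so the exponent of the conductor is one. -/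
noncomputable def conductor {g : ℕ} (q : Fin (g + 2) → ℤ) (p : Fin (2 * g + 3) → ℤ) : ℕ :=
  ∏ᶠ l ∈ {l : ℕ | l.Prime ∧ ¬ HasGoodReduction q p l}, l

/-- The square of the norm (the integral of `(i / 2) ω ∧ conj ω` over the complex points of the
curve) of the differential `ω = (∑ v_i x^i) dx / (2 y + q(x))`: over each `x` there are two points, and
`(2 y + q)² = q² + 4 p`. -/
noncomputable def normSq {g : ℕ} (q : Fin (g + 2) → ℤ) (p : Fin (2 * g + 3) → ℤ)
    (v : Fin g → ℝ) : ENNReal :=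
  ∫⁻ x : ℂ, ENNReal.ofReal (2 * ‖∑ i, (v i : ℂ) * x ^ (i : ℕ)‖ ^ 2 /
    ‖(∑ i, (q i : ℂ) * x ^ (i : ℕ)) ^ 2 + 4 * ∑ j, (p j : ℂ) * x ^ (j : ℕ)‖)

/-- The height: the logarithm of the volume of the unit ball of the norm, in the coordinates of the
basis `x^i dx / (2 y + q)`, divided by the volume of the standard ball. This is `-1/2` times the
logarithm of the determinant of the Gram matrix of the basis; for `IsSemistable q p` the basis
generates the differentials of the semistable model over the integers, and this is the stable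
Faltings height of the Jacobian. -/
noncomputable def faltings {g : ℕ} (q : Fin (g + 2) → ℤ) (p : Fin (2 * g + 3) → ℤ) : ℝ :=
  Real.log ((volume {v : Fin g → ℝ | normSq q p v ≤ 1}).toReal /
    (volume {v : Fin g → ℝ | ∑ i, v i ^ 2 ≤ 1}).toReal)

/-- Frey's inequality with the slope `κ`. -/
def FreyInequality {g : ℕ} (κ : ℝ) (q : Fin (g + 2) → ℤ) (p : Fin (2 * g + 3) → ℤ) : Prop :=
  faltings q p ≤ κ * Real.log (conductor q p)

/-- The form `z^(g + 1)`: the curves are `y² + y = p(x)` in affine coordinates. -/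
def one (g : ℕ) (i : Fin (g + 2)) : ℤ := if (i : ℕ) = 0 then 1 else 0

open Pool.Agent.Run7.h802.FH in
theorem normSq_eq {g : ℕ} (q : Fin (g + 2) → ℤ) (p : Fin (2 * g + 3) → ℤ) (v : Fin g → ℝ) :
    normSq q p v = energyH (Fv q p) v := by
  unfold normSq energyH
  refine lintegral_congr fun x => ?_
  have h1 := congrArg (eval (![1, x] : Fin 2 → ℂ))
    (bf_Fv (fun i => ((q i : ℤ) : ℂ)) (fun j => ((p j : ℤ) : ℂ)))
  simp only [map_add, map_mul, map_pow, map_ofNat] at h1
  rw [eval_bf (D := 2 * g + 2), eval_bf (D := g + 1), eval_bf (D := 2 * g + 2)] at h1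
  simp only [Matrix.cons_val_zero, Matrix.cons_val_one, one_pow, mul_one] at h1
  have h2 : (∑ k : Fin (2 * g + 3), ((Fv q p k : ℤ) : ℂ) * x ^ (k : ℕ)) =
      (∑ i, (q i : ℂ) * x ^ (i : ℕ)) ^ 2 + 4 * ∑ j, (p j : ℂ) * x ^ (j : ℕ) := by
    rw [← h1]
    refine Finset.sum_congr rfl fun k _ => ?_
    rw [Fv_cast]
  rw [h2]

open Pool.Agent.Run7.h802.FH in
theorem faltings_eq {g : ℕ} (q : Fin (g + 2) → ℤ) (p : Fin (2 * g + 3) → ℤ) :
    faltings q p = heightF (Fv q p) := by
  unfold faltings heightF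
  simp only [normSq_eq]

open Pool.Agent.Run7.h802.FH in
theorem frey_of {g : ℕ} (κ : ℝ) (q : Fin (g + 2) → ℤ) (p : Fin (2 * g + 3) → ℤ)
    (h : BdB κ q p) : FreyInequality κ q p := by
  obtain ⟨hfin, h2⟩ := h
  have hc : conductor q p = ∏ l ∈ hfin.toFinset, l :=
    finprod_mem_eq_finite_toFinset_prod (fun l : ℕ => l) hfin
  unfold FreyInequality
  rw [faltings_eq, hc]
  refine h2 _ ?_ ?_
  · refine Finset.prod_ne_zero_iff.2 fun l hl => ?_
    exact ((Set.Finite.mem_toFinset hfin).1 hl).1.ne_zero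
  · intro l hl hb
    exact Finset.dvd_prod_of_mem (fun l => l) ((Set.Finite.mem_toFinset hfin).2 ⟨hl, hb⟩)

/-- Frey's inequality for the Jacobians of the hyperelliptic curves `y² + q(x) y = p(x)` of genus `g`
over the rationals, with `g / 4 + ε` in place of Frey's slope `g / 2 + ε` and with the constant
`c = 0`:
(1) for each `q` it holds for all smooth curves with integral coefficients of `p` bounded by `H`, up
to `C * H ^ (2 g + 3 - η)` exceptions (of about `(2 H) ^ (2 g + 3)`);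
(2) for all `ε₁ > 0` there is `B` such that for all `Q` divisible by all primes up to `B` and for each
curve `(q, p)` with good reduction at the primes dividing `Q`, a proportion at least `1 - ε₁` of the
curves `(q, p + Q b)` is semistable and satisfies the inequality;
(3) for `q = 1` a positive proportion of all `p` gives a semistable curve satisfying the
inequality. -/
theorem result (g : ℕ) (hg : 1 ≤ g) (ε : ℝ) (hε : 0 < ε) :
    (∀ q : Fin (g + 2) → ℤ, ∃ C η : ℝ, 0 < η ∧ ∀ H : ℕ, 1 ≤ H →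
      (Nat.card {p : Fin (2 * g + 3) → ℤ // (∀ k, |p k| ≤ H) ∧ IsSmooth q p ∧
        ¬ FreyInequality ((g : ℝ) / 2 / 2 + ε) q p} : ℝ) ≤ C * (H : ℝ) ^ (2 * (g : ℝ) + 3 - η)) ∧
    (∀ ε₁ : ℝ, 0 < ε₁ → ∃ B : ℕ, ∀ Q : ℕ, 0 < Q → (∀ l : ℕ, l.Prime → l ≤ B → l ∣ Q) →
      ∀ (q : Fin (g + 2) → ℤ) (p : Fin (2 * g + 3) → ℤ),
        (∀ l : ℕ, l.Prime → l ∣ Q → HasGoodReduction q p l) → ∃ H₀ : ℕ, ∀ H : ℕ, H₀ ≤ H →
          (1 - ε₁) * (2 * (H : ℝ) + 1) ^ (2 * g + 3) ≤
            (Nat.card {b : Fin (2 * g + 3) → ℤ // (∀ k, |b k| ≤ H) ∧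
              IsSemistable q (fun k => p k + Q * b k) ∧
              FreyInequality ((g : ℝ) / 2 / 2 + ε) q (fun k => p k + Q * b k)} : ℝ)) ∧
    ∃ δ : ℝ, 0 < δ ∧ ∃ H₀ : ℕ, ∀ H : ℕ, H₀ ≤ H →
      δ * (2 * (H : ℝ) + 1) ^ (2 * g + 3) ≤
        (Nat.card {p : Fin (2 * g + 3) → ℤ // (∀ k, |p k| ≤ H) ∧ IsSemistable (one g) p ∧
          FreyInequality ((g : ℝ) / 2 / 2 + ε) (one g) p} : ℝ) := by
  obtain ⟨q1, q2⟩ := Pool.Agent.Run7.h802.FH.hyp_class2 Pool.Agent.Run7.h802.FH.allRes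
    Pool.Agent.Run7.h802.FH.allRad2 Pool.Agent.Run7.h351.FH.t_NL Pool.Agent.Run7.h802.FH.allDen Pool.Agent.Run7.h212.FH.t_VOL
    Pool.Agent.Run7.h802.FH.t_HYP g hg ε hε
  have q3 := Pool.Agent.Run7.h802.FH.hyp_pos2 Pool.Agent.Run7.h802.FH.allRes
    Pool.Agent.Run7.h802.FH.allRad2 Pool.Agent.Run7.h351.FH.t_NL Pool.Agent.Run7.h802.FH.allDen Pool.Agent.Run7.h212.FH.t_VOL
    Pool.Agent.Run7.h802.FH.t_HYP Pool.Agent.Run7.h802.FH.t_CLS g hg ε hε
  refine ⟨fun q => ?_, ?_, ?_⟩
  · obtain ⟨C, η, hη, hC⟩ := q1 q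
    refine ⟨C, η, hη, fun H hH => (Pool.Agent.Run7.h802.FH.nat_mono H _ _ ?_).trans (hC H hH)⟩
    intro a _ ha
    exact ⟨ha.1, fun hb => ha.2 (frey_of _ _ _ hb)⟩
  · intro ε₁ hε₁
    obtain ⟨B, hB⟩ := q2 ε₁ hε₁
    refine ⟨B, fun Q hQ hQB q p hp => ?_⟩
    obtain ⟨H₀, hH₀⟩ := hB Q hQ hQB q p hp
    refine ⟨H₀, fun H hH => (hH₀ H hH).trans
      (Pool.Agent.Run7.h802.FH.nat_mono H _ _ ?_)⟩
    intro b _ hb
    exact ⟨⟨hb.1, hb.2.1⟩, frey_of _ _ _ hb.2.2⟩
  · obtain ⟨δ, hδ, H₀, hH₀⟩ := q3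
    refine ⟨δ, hδ, H₀, fun H hH => (hH₀ H hH).trans
      (Pool.Agent.Run7.h802.FH.nat_mono H _ _ ?_)⟩
    intro b _ hb
    exact ⟨⟨hb.1, hb.2.1⟩, frey_of _ _ _ hb.2.2⟩

end Pool.Agent.Results.MP_c59389_nt.HyperellipticJacobians
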