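import Mathlib
import Pool.Agent.Run7.h742.SZ.Fh4

/-! Frey's inequality `h_F(A) ≤ (n / 2 + ε) log N_A + c` for the Weil restrictions `A = Res_{L/ℚ} E` of
all elliptic curves `E` over all number fields `L` whose invariant is the value of a rational
function at an integral point of affine space, for almost all integral points. The slope is
`D / (12 ω)`, where `D` is the degree of the rational function and `ω` the weight of its poles, and
so Frey's slope is reached in all dimensions `n ≥ D / (6 ω)`. -/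

set_option autoImplicit false

namespace Pool.Agent.Results.MP_c59389_nt.IntegralPointsAllFields

open MvPolynomial NumberField IsDedekindDomain

/-- the modular invariant `j(τ) = E₄(τ) ^ 3 / Δ(τ) = 1 / q + 744 + ⋯` -/
noncomputable def jInv (τ : UpperHalfPlane) : ℂ :=
  ModularForm.E₄ τ ^ 3 / ModularForm.discriminant τ

/-- the archimedean term `- log (|Δ(τ)| (Im τ) ^ 6)` of the Faltings height -/
noncomputable def arch (τ : UpperHalfPlane) : ℝ :=
  -Real.log (‖ModularForm.discriminant τ‖ * τ.im ^ 6)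

/-- the points `τ w` have modular invariant `j` -/
def IsPeriod {L : Type} [Field L] [NumberField L] (j : L)
    (τ : InfinitePlace L → UpperHalfPlane) : Prop := ∀ w, jInv (τ w) = w.embedding j

/-- the stable Faltings height of the Weil restriction `A = Res_{L/ℚ} E` of an elliptic curve `E`
over `L` of invariant `j`, where the points `τ w` have invariant `j` (up to an absolute multiple of
`[L : ℚ]` which depends on the normalisation of the metric only): `12 h_F(A)` is the sum of
`log max(|j|_v, 1)` over the finite places `v` of `L`, the stable discriminant of `E`, and of the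
archimedean terms -/
noncomputable def stableHeight {L : Type} [Field L] [NumberField L] (j : L)
    (τ : InfinitePlace L → UpperHalfPlane) : ℝ :=
  (∑ᶠ v : HeightOneSpectrum (𝓞 L), Real.log (max (FinitePlace.mk v j) 1) +
    ∑ w : InfinitePlace L, (w.mult : ℝ) * arch (τ w)) / 12

/-- good reduction at `v`: some Weierstrass equation over `L` of the curve is integral at `v` and
has a discriminant which is a unit at `v` -/
def GoodAt {L : Type} [Field L] [NumberField L] (v : HeightOneSpectrum (𝓞 L))
    (E : WeierstrassCurve L) : Prop :=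
  ∃ C : WeierstrassCurve.VariableChange L,
    v.valuation L (C • E).a₁ ≤ 1 ∧ v.valuation L (C • E).a₂ ≤ 1 ∧ v.valuation L (C • E).a₃ ≤ 1 ∧
    v.valuation L (C • E).a₄ ≤ 1 ∧ v.valuation L (C • E).a₆ ≤ 1 ∧ v.valuation L (C • E).Δ = 1

/-- semistable (good or multiplicative) reduction at `v`: some Weierstrass equation over `L` of the
curve is integral at `v` and its discriminant or its invariant `c₄` is a unit at `v` -/
def SemistableAt {L : Type} [Field L] [NumberField L] (v : HeightOneSpectrum (𝓞 L))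
    (E : WeierstrassCurve L) : Prop :=
  ∃ C : WeierstrassCurve.VariableChange L,
    v.valuation L (C • E).a₁ ≤ 1 ∧ v.valuation L (C • E).a₂ ≤ 1 ∧ v.valuation L (C • E).a₃ ≤ 1 ∧
    v.valuation L (C • E).a₄ ≤ 1 ∧ v.valuation L (C • E).a₆ ≤ 1 ∧
    (v.valuation L (C • E).Δ = 1 ∨ v.valuation L (C • E).c₄ = 1)

/-- the product of the norms of the primes of multiplicative reduction not dividing six -/
noncomputable def multNorm {L : Type} [Field L] [NumberField L] (E : WeierstrassCurve L) : ℝ :=
  ∏ᶠ v ∈ {v : HeightOneSpectrum (𝓞 L) |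
    ¬ GoodAt v E ∧ SemistableAt v E ∧ v.valuation L 6 = 1}, (Ideal.absNorm v.asIdeal : ℝ)

/-- the product of the squares of the norms of the primes of additive reduction not dividing six -/
noncomputable def addNorm {L : Type} [Field L] [NumberField L] (E : WeierstrassCurve L) : ℝ :=
  ∏ᶠ v ∈ {v : HeightOneSpectrum (𝓞 L) | ¬ SemistableAt v E ∧ v.valuation L 6 = 1},
    (Ideal.absNorm v.asIdeal : ℝ) ^ 2

/-- a factor of the conductor of `A = Res_{L/ℚ} E`: the part prime to six of the norm of the
conductor of `E`, times the square of the discriminant of `L` -/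
noncomputable def cond {L : Type} [Field L] [NumberField L] (E : WeierstrassCurve L) : ℝ :=
  multNorm E * addNorm E * |(discr L : ℝ)| ^ 2

/-- `max |x_j|` -/
def H {n : ℕ} (x : Fin (n + 1) → ℤ) : ℕ := Finset.univ.sup fun j => (x j).natAbs

/-- the rational points of the affine space `𝔸^n = ℙ^n ∖ {x 0 = 0}` with denominator in `M` and
with `H x ≤ B`: the point `(x 1 / x 0, …, x n / x 0)` is given by its coprime integer coordinates
with `x 0 > 0`, and `x 0` is its denominator. `M = {1}`: the integral points -/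
def Points (n : ℕ) (M : Set ℕ) (B : ℕ) : Set (Fin (n + 1) → ℤ) :=
  {x | Finset.univ.gcd x = 1 ∧ 0 < x 0 ∧ (x 0).toNat ∈ M ∧ H x ≤ B}

/-- `F`, `G` are forms of degree `D` in `x 0, …, x n`, so `F / G` is a rational function on `𝔸^n`,
and its poles contain the distinct hypersurfaces `P j = 0` of degree `k j`, irreducible over `ℚ`,
none of which is the hyperplane `x 0 = 0`: `P j` divides `G` and does not divide `F` -/
structure IsInvariant {n q : ℕ} (D : ℕ) (F G : MvPolynomial (Fin (n + 1)) ℤ)
    (P : Fin q → MvPolynomial (Fin (n + 1)) ℤ) (k : Fin q → ℕ) : Prop where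
  hF : F.IsHomogeneous D
  hG : G.IsHomogeneous D
  hP : ∀ j, (P j).IsHomogeneous (k j)
  irreducible : ∀ j, Irreducible (map (Int.castRingHom ℚ) (P j))
  distinct : ∀ i j, i ≠ j →
    ¬ Associated (map (Int.castRingHom ℚ) (P i)) (map (Int.castRingHom ℚ) (P j))
  affine : ∀ j, ¬ Associated (map (Int.castRingHom ℚ) (P j)) (X 0)
  dvd : ∀ j, map (Int.castRingHom ℚ) (P j) ∣ map (Int.castRingHom ℚ) G
  not_dvd : ∀ j, ¬ map (Int.castRingHom ℚ) (P j) ∣ map (Int.castRingHom ℚ) F

/-- the weight of the poles: a pole of degree `1` counts for `1`, a pole of degree at least `2`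
counts for `2` -/
def weight {q : ℕ} (k : Fin q → ℕ) : ℝ := ∑ j, ((min (k j) 2 : ℕ) : ℝ)

/-- `E` is an elliptic curve over `L` with invariant `F (x) / G (x)`, and the `τ w` are its periods -/
def HasInvariant {n : ℕ} (F G : MvPolynomial (Fin (n + 1)) ℤ) (x : Fin (n + 1) → ℤ) {L : Type}
    [Field L] [NumberField L] (E : WeierstrassCurve L) (τ : InfinitePlace L → UpperHalfPlane) :
    Prop :=
  eval x G ≠ 0 ∧ E.Δ ≠ 0 ∧ E.c₄ ^ 3 / E.Δ = ((eval x F : ℤ) : L) / ((eval x G : ℤ) : L) ∧
    IsPeriod (E.c₄ ^ 3 / E.Δ) τ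

/-- the points `x` for which `h_F(A) + c₀ [L : ℚ] ≤ κ log N_A` fails for the Weil restriction
`A = Res_{L/ℚ} E` of some elliptic curve `E` with invariant `F (x) / G (x)` over some number field
`L` -/
def Failures {n : ℕ} (F G : MvPolynomial (Fin (n + 1)) ℤ) (κ c₀ : ℝ) :
    Set (Fin (n + 1) → ℤ) :=
  {x | x 0 ≠ 0 ∧ ∃ (L : Type) (_ : Field L) (_ : NumberField L) (E : WeierstrassCurve L)
    (τ : InfinitePlace L → UpperHalfPlane), HasInvariant F G x E τ ∧
      κ * Real.log (cond E) <
        stableHeight (E.c₄ ^ 3 / E.Δ) τ + c₀ * Module.finrank ℚ L}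

/-- the proportion of the points of `Q` among the points with denominators in `M` of height at most
`B` is at most a negative power of `B`, uniformly in the set `M` -/
def PowerSaving (n : ℕ) (Q : Set (Fin (n + 1) → ℤ)) : Prop :=
  ∃ δ : ℝ, 0 < δ ∧ ∃ C : ℝ, 0 < C ∧ ∀ B : ℕ, 1 ≤ B → ∀ M : Set ℕ,
    ((Points n M B ∩ Q).ncard : ℝ) ≤ C * (B : ℝ) ^ (-δ) * ((Points n M B).ncard : ℝ)

theorem cond_eq {L : Type} [Field L] [NumberField L] (E : WeierstrassCurve L) (hE : E.Δ ≠ 0) :
    Real.log (cond E) = Run7.h742.SZ.lc ℚ E := by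
  have hdL1 : (1 : ℝ) ≤ |(discr L : ℝ)| := by
    have h1 : (1 : ℤ) ≤ |discr L| := Int.one_le_abs (discr_ne_zero L)
    exact_mod_cast h1
  have hm : 0 < multNorm E := Pool.Agent.Y733.FF.multN_pos E hE
  have ha : 0 < addNorm E := Pool.Agent.Y733.FF.addN_pos E hE
  have hr : 0 < |(discr L : ℝ)| := by linarith
  have hcond : Real.log (cond E) = Real.log (multNorm E) + Real.log (addNorm E) +
      2 * Real.log |(discr L : ℝ)| := by
    unfold cond
    rw [Real.log_mul (mul_pos hm ha).ne' (pow_pos hr 2).ne', Real.log_mul hm.ne' ha.ne',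
      Real.log_pow]
    push_cast
    ring
  rw [hcond, ← Pool.Agent.N365.FH.rd_rat]
  rfl

/-- **Frey's inequality over all number fields at almost all integral points.** Let `n ≥ 1` be the
number of the variables and `j = F / G` an invariant of degree `D` whose poles have the weight `ω`.
(1) For `κ > D / (12 ω)` and every `c₀` the inequality `h_F(A) + c₀ [L : ℚ] ≤ κ log N_A` holds for
`A = Res_{L/ℚ} E`, for ALL number fields `L` and ALL elliptic curves `E` over `L` with invariant
`j (x)`, for all points `x` outside a set which contains a power-saving proportion of the points,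
uniformly in the set `M` of the denominators.
(2) There is one set `E₀` of relative density zero among the points with denominators in `M`,
uniformly in `M`, such that for all invariants `j` of `n` variables and all `x` outside `E₀`:
`h_F(A) ≤ κ log N_A + C [L : ℚ]` for `κ > D / (12 ω)`, and for every `ε > 0` Frey's inequality
`h_F(A) ≤ (d / 2 + ε) log N_A + C d` holds in all dimensions `d = [L : ℚ] ≥ D / (6 ω)`, for all number
fields `L` of degree `d` and all `E`, with `C` depending on `j` and `κ` (or `ε`) only. -/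
theorem result : ∀ n : ℕ, 1 ≤ n →
    (∀ (D q : ℕ) (F G : MvPolynomial (Fin (n + 1)) ℤ)
      (P : Fin q → MvPolynomial (Fin (n + 1)) ℤ) (k : Fin q → ℕ), IsInvariant D F G P k →
      ∀ κ : ℝ, (D : ℝ) < 12 * κ * weight k → ∀ c₀ : ℝ, PowerSaving n (Failures F G κ c₀)) ∧
    ∃ E₀ : Set (Fin (n + 1) → ℤ),
      (∀ ε : ℝ, 0 < ε → ∃ B₀ : ℕ, ∀ B : ℕ, B₀ ≤ B → ∀ M : Set ℕ,
        ((Points n M B ∩ E₀).ncard : ℝ) ≤ ε * ((Points n M B).ncard : ℝ)) ∧
      ∀ (D q : ℕ) (F G : MvPolynomial (Fin (n + 1)) ℤ)
        (P : Fin q → MvPolynomial (Fin (n + 1)) ℤ) (k : Fin q → ℕ), IsInvariant D F G P k →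
        (∀ κ : ℝ, (D : ℝ) < 12 * κ * weight k → ∃ C : ℝ, ∀ x : Fin (n + 1) → ℤ,
          x 0 ≠ 0 → x ∉ E₀ → ∀ (L : Type) [Field L] [NumberField L] (E : WeierstrassCurve L)
          (τ : InfinitePlace L → UpperHalfPlane), HasInvariant F G x E τ →
            stableHeight (E.c₄ ^ 3 / E.Δ) τ ≤
              κ * Real.log (cond E) + C * Module.finrank ℚ L) ∧
        (0 < weight k → ∀ ε : ℝ, 0 < ε → ∃ C : ℝ, ∀ x : Fin (n + 1) → ℤ,
          x 0 ≠ 0 → x ∉ E₀ → ∀ (L : Type) [Field L] [NumberField L] (E : WeierstrassCurve L)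
          (τ : InfinitePlace L → UpperHalfPlane), HasInvariant F G x E τ →
            (D : ℝ) ≤ 6 * weight k * Module.finrank ℚ L →
            stableHeight (E.c₄ ^ 3 / E.Δ) τ ≤
              ((Module.finrank ℚ L : ℝ) / 2 + ε) * Real.log (cond E) +
                C * Module.finrank ℚ L) := by
  intro n hn
  have hinv : ∀ (D q : ℕ) (F G : MvPolynomial (Fin (n + 1)) ℤ)
      (P : Fin q → MvPolynomial (Fin (n + 1)) ℤ) (k : Fin q → ℕ), IsInvariant D F G P k →
      Run7.h742.SZ.Inv D F G P k := fun D q F G P k h =>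
    ⟨h.hF, h.hG, ⟨h.hP, h.irreducible, h.distinct, h.affine⟩, h.dvd, h.not_dvd⟩
  refine ⟨fun D q F G P k h κ hκ c₀ => ?_, ?_⟩
  · refine (Run7.h742.SZ.stab_ps hn (hinv D q F G P k h) hκ c₀).mono ?_
    rintro x ⟨hx, L, iF, iN, E, τ, hE, hlt⟩
    refine ⟨hx, L, iF, iN, E, τ, hE, ?_⟩
    rw [← cond_eq E hE.2.1]
    exact hlt
  · obtain ⟨E₀, hE₀, hall⟩ := Run7.h742.SZ.frey_univ hn
    refine ⟨E₀, hE₀, fun D q F G P k h => ?_⟩
    obtain ⟨h1, -⟩ := hall D q F G P k (hinv D q F G P k h)
    have key : ∀ κ : ℝ, (D : ℝ) < 12 * κ * weight k → ∃ C : ℝ, ∀ x : Fin (n + 1) → ℤ,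
          x 0 ≠ 0 → x ∉ E₀ → ∀ (L : Type) [Field L] [NumberField L] (E : WeierstrassCurve L)
          (τ : InfinitePlace L → UpperHalfPlane), HasInvariant F G x E τ →
            stableHeight (E.c₄ ^ 3 / E.Δ) τ ≤
              κ * Real.log (cond E) + C * Module.finrank ℚ L := by
      intro κ hκ
      obtain ⟨C, -, hC⟩ := h1 κ hκ
      refine ⟨C, fun x hx hxE L _ _ E τ hE => ?_⟩
      rw [cond_eq E hE.2.1]
      exact hC x hx hxE L E τ hE
    refine ⟨key, fun hw ε hε => ?_⟩
    obtain ⟨C, hC⟩ := key ((D : ℝ) / (12 * weight k) + ε) (by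
      have h2 : 12 * ((D : ℝ) / (12 * weight k) + ε) * weight k = D + 12 * (ε * weight k) := by
        field_simp
      rw [h2]
      have := mul_pos hε hw
      linarith)
    refine ⟨C, fun x hx hxE L _ _ E τ hE hD => (hC x hx hxE L E τ hE).trans ?_⟩
    have h2 : (D : ℝ) / (12 * weight k) + ε ≤ (Module.finrank ℚ L : ℝ) / 2 + ε := by
      have h3 : (D : ℝ) / (12 * weight k) ≤ (Module.finrank ℚ L : ℝ) / 2 := by
        rw [div_le_div_iff₀ (by positivity) (by norm_num)]
        linarith
      linarith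
    have h4 : 0 ≤ Real.log (cond E) := by
      rw [cond_eq E hE.2.1]
      exact Run7.h742.SZ.lc_nonneg ℚ E hE.2.1
    have h5 := mul_le_mul_of_nonneg_right h2 h4
    linarith

end Pool.Agent.Results.MP_c59389_nt.IntegralPointsAllFields
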