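import Mathlib
import Pool.Agent.Run7.h585.AN.SCount

/-!
# The typical semistable elliptic curves over `ℚ` which violate Frey's inequality with a small slope

Frey's inequality is `h_F(A) ≤ κ log N_A + c`, `h_F` the stable Faltings height. We consider the semistable elliptic curves
over `ℚ`, ordered by `max (|c₄| ^ (1/2), |c₆| ^ (1/3)) ≤ X`, and the slopes `1/12 < κ < 1/10`. The number `V(X)` of the
violators satisfies

  `log V(X) = (1/(2κ) - 1) log X + (√(48 - 4/κ) + o(1)) √(log X / log log X)`,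

and all of them, except for a proportion at most `exp (- δ √(log X / log log X))`, have the following properties (for every
`ε > 0`, with `δ = δ(ε) > 0`):

* `|Δ| ≥ X ^ (6 - ε)` and the archimedean term of the height is at most `ε log X` in absolute value: the curves are not near
  the cusp; the conductor (the product of the primes dividing `Δ`) is `X ^ (1/(2κ))` up to `X ^ (± ε)`;
* the product of the primes whose squares divide `Δ` is at most `X ^ ε`;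
* for all `y ≥ 2` the number of the primes `p ≤ y` with `p² ∣ Δ` is `(√(12 - 1/κ) + O(ε)) √(log X / log log X)` multiplied by
  `1 - log log X / (2 log y)` (by zero if this is negative).

So the excess of `|Δ|` over the conductor comes from about `√(12 - 1/κ) √(log X / log log X)` primes, their sizes are powers
of `log X`, and exactly half of them are `≤ log X` (take `y = log X`), in the limit.
-/

set_option autoImplicit false

namespace Pool.Agent.Results.MP_c59389_nt.TypicalSemistable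

open Filter Topology

/-- an integral Weierstrass equation with `Δ ≠ 0` and `gcd(c₄, Δ) = 1`; these are the minimal equations of the semistable
elliptic curves over `ℚ` -/
def Semistable (W : WeierstrassCurve ℤ) : Prop := W.Δ ≠ 0 ∧ IsCoprime W.c₄ W.Δ

/-- the conductor of a semistable curve: the product of the primes dividing `Δ` -/
def cond (D : ℤ) : ℕ := ∏ p ∈ D.natAbs.primeFactors, p

/-- the modular invariant `j(τ) = E₄(τ) ^ 3 / Δ(τ) = 1 / q + 744 + ⋯` -/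
noncomputable def jInv (τ : UpperHalfPlane) : ℂ :=
  ModularForm.E₄ τ ^ 3 / ModularForm.discriminant τ

/-- the archimedean term `- log (|Δ(τ)| (Im τ) ^ 6)` of the Faltings height -/
noncomputable def arch (τ : UpperHalfPlane) : ℝ :=
  -Real.log (‖ModularForm.discriminant τ‖ * τ.im ^ 6)

/-- the curve with the invariants `c₄, c₆` is isomorphic over `ℂ` to `ℂ / (ℤ + ℤ τ)`: `j(τ) = 1728 c₄³ / (c₄³ - c₆²)` is the
invariant of the curve -/
def IsPeriod (q : ℤ × ℤ) (τ : UpperHalfPlane) : Prop :=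
  jInv τ = ((1728 * (q.1 : ℚ) ^ 3 / ((q.1 : ℚ) ^ 3 - (q.2 : ℚ) ^ 2) : ℚ) : ℂ)

/-- The stable Faltings height (up to an additive constant which depends on the normalisation only):
`12 h_F` is the logarithm of the stable minimal discriminant, that is of the denominator of the invariant
`j = c₄³ / Δ`, plus the archimedean term at a period `τ` of the curve. -/
noncomputable def height (q : ℤ × ℤ) (τ : UpperHalfPlane) : ℝ :=
  (Real.log ((1728 * (q.1 : ℚ) ^ 3 / ((q.1 : ℚ) ^ 3 - (q.2 : ℚ) ^ 2) : ℚ).den : ℝ) + arch τ) / 12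

/-- the invariants `(c₄, c₆)` of the semistable curves with `|c₄| ≤ X²`, `|c₆| ≤ X³` which violate
`h_F < κ log N + c` -/
def Violators (κ c X : ℝ) : Set (ℤ × ℤ) :=
  {q | ∃ W : WeierstrassCurve ℤ, Semistable W ∧ q = (W.c₄, W.c₆) ∧
    |(W.c₄ : ℝ)| ≤ X ^ 2 ∧ |(W.c₆ : ℝ)| ≤ X ^ 3 ∧
    ∃ τ, IsPeriod q τ ∧ κ * Real.log (cond W.Δ : ℝ) + c ≤ height q τ}

/-- the discriminant `Δ = (c₄³ - c₆²) / 1728` -/
def disc (q : ℤ × ℤ) : ℤ := (q.1 ^ 3 - q.2 ^ 2) / 1728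

/-- the product of the primes whose squares divide `D` -/
def squareful (D : ℤ) : ℕ := ∏ p ∈ D.natAbs.primeFactors with p ^ 2 ∣ D.natAbs, p

/-- the number of the primes `p ≤ y` with `p² ∣ D` -/
noncomputable def number (D : ℤ) (y : ℝ) : ℕ :=
  {p : ℕ | p.Prime ∧ (p : ℝ) ≤ y ∧ (p : ℤ) ^ 2 ∣ D}.ncard

/-- `√(log X / log log X)` -/
noncomputable def scale (X : ℝ) : ℝ := √(Real.log X / Real.log (Real.log X))

/-- the curves which look as described above, with the error `ε` -/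
def Typical (κ ε X : ℝ) (q : ℤ × ℤ) : Prop :=
  X ^ (6 - ε) ≤ |(disc q : ℝ)| ∧ (∀ τ, IsPeriod q τ → |arch τ| ≤ ε * Real.log X) ∧
  X ^ (1 / (2 * κ) - ε) ≤ cond (disc q) ∧ (cond (disc q) : ℝ) ≤ X ^ (1 / (2 * κ) + ε) ∧
  (squareful (disc q) : ℝ) ≤ X ^ ε ∧
  ∀ y : ℝ, 2 ≤ y → |(number (disc q) y : ℝ) -
    max 0 (1 - Real.log (Real.log X) / (2 * Real.log y)) * (√(12 - 1 / κ) * scale X)| ≤
      ε * scale X

theorem disc_eq (W : WeierstrassCurve ℤ) : disc (W.c₄, W.c₆) = W.Δ := by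
  unfold disc
  have := W.c_relation
  simp only
  omega

theorem rel_Q (W : WeierstrassCurve ℤ) :
    ((W.c₄ : ℚ)) ^ 3 - ((W.c₆ : ℚ)) ^ 2 = 1728 * (W.Δ : ℚ) := by
  have := W.c_relation
  exact_mod_cast this.symm

theorem j_eq (W : WeierstrassCurve ℤ) :
    1728 * ((W.c₄ : ℤ) : ℚ) ^ 3 / (((W.c₄ : ℤ) : ℚ) ^ 3 - ((W.c₆ : ℤ) : ℚ) ^ 2) =
      ((W.c₄ : ℤ) : ℚ) ^ 3 / ((W.Δ : ℤ) : ℚ) := by
  rw [rel_Q, mul_div_mul_left _ _ (by norm_num)]

/-- the denominator of the invariant -/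
theorem den_eq {W : WeierstrassCurve ℤ} (hW : Semistable W) :
    ((((W.c₄ : ℤ) : ℚ) ^ 3 / ((W.Δ : ℤ) : ℚ)).den : ℤ) = |W.Δ| := by
  have hco : IsCoprime (W.c₄ ^ 3) W.Δ := hW.2.pow_left
  have h : ((W.c₄ : ℤ) : ℚ) ^ 3 / ((W.Δ : ℤ) : ℚ) = Rat.divInt (W.c₄ ^ 3) W.Δ := by
    rw [Rat.divInt_eq_div]
    push_cast
    rfl
  rw [h, Rat.den_divInt]
  rw [if_neg hW.1, Int.isCoprime_iff_gcd_eq_one.1 hco.symm, Nat.div_one, Int.natCast_natAbs]

/-- the invariant of the model `y² = x³ - a x - b` -/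
theorem jE_eq {W : WeierstrassCurve ℤ} {a b u : ℤ} (h0 : W.Δ ≠ 0) (hu : u = 1 ∨ u = 3)
    (ha : a * u ^ 4 = 27 * W.c₄) (hb : b * u ^ 6 = 54 * W.c₆) :
    Pool.Agent.N906.FH.jE a b = ((W.c₄ : ℤ) : ℚ) ^ 3 / ((W.Δ : ℤ) : ℚ) := by
  have hu0 : (u : ℚ) ≠ 0 := by rcases hu with rfl | rfl <;> norm_num
  have hr := Pool.Agent.N265.SS.rel ha hb
  have hD := Pool.Agent.Run7.h585.AN.Semi.dd_ne h0 ha hb
  have hDq : (4 * (a : ℚ) ^ 3 - 27 * (b : ℚ) ^ 2) ≠ 0 := by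
    have : ((Pool.Agent.N906.SZ.Dd a b : ℤ) : ℚ) ≠ 0 := by exact_mod_cast hD
    unfold Pool.Agent.N906.SZ.Dd at this
    push_cast at this
    exact this
  have hrq : (4 * (a : ℚ) ^ 3 - 27 * (b : ℚ) ^ 2) * (u : ℚ) ^ 12 =
      2 ^ 8 * 3 ^ 12 * ((W.Δ : ℤ) : ℚ) := by
    have h := congrArg (fun z : ℤ => (z : ℚ)) hr
    unfold Pool.Agent.N906.SZ.Dd at h
    push_cast at h
    rw [h]
    norm_num
  have haq : (a : ℚ) * (u : ℚ) ^ 4 = 27 * ((W.c₄ : ℤ) : ℚ) := by exact_mod_cast ha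
  have h0q : ((W.Δ : ℤ) : ℚ) ≠ 0 := by exact_mod_cast h0
  have hu4 : (u : ℚ) ^ 4 ≠ 0 := pow_ne_zero _ hu0
  have e1 : (Pool.Agent.N906.FH.Ec a b).c₄ = 48 * (a : ℚ) := by
    simp only [Pool.Agent.N906.FH.Ec, WeierstrassCurve.c₄, WeierstrassCurve.b₂,
      WeierstrassCurve.b₄]
    ring
  have e2 : (Pool.Agent.N906.FH.Ec a b).Δ = 16 * (4 * (a : ℚ) ^ 3 - 27 * (b : ℚ) ^ 2) := by
    simp only [Pool.Agent.N906.FH.Ec, WeierstrassCurve.Δ, WeierstrassCurve.b₂,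
      WeierstrassCurve.b₄, WeierstrassCurve.b₆, WeierstrassCurve.b₈]
    ring
  unfold Pool.Agent.N906.FH.jE
  rw [e1, e2, div_eq_div_iff (mul_ne_zero (by norm_num) hDq) h0q]
  have h12 : (u : ℚ) ^ 12 ≠ 0 := pow_ne_zero _ hu0
  apply mul_right_cancel₀ h12
  have e3 : ((a : ℚ) * (u : ℚ) ^ 4) ^ 3 = (27 * ((W.c₄ : ℤ) : ℚ)) ^ 3 := by rw [haq]
  calc (48 * (a : ℚ)) ^ 3 * ((W.Δ : ℤ) : ℚ) * (u : ℚ) ^ 12
      = 48 ^ 3 * ((a : ℚ) * (u : ℚ) ^ 4) ^ 3 * ((W.Δ : ℤ) : ℚ) := by ring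
    _ = 48 ^ 3 * (27 * ((W.c₄ : ℤ) : ℚ)) ^ 3 * ((W.Δ : ℤ) : ℚ) := by rw [e3]
    _ = ((W.c₄ : ℤ) : ℚ) ^ 3 * 16 * (2 ^ 8 * 3 ^ 12 * ((W.Δ : ℤ) : ℚ)) := by ring
    _ = ((W.c₄ : ℤ) : ℚ) ^ 3 * 16 * ((4 * (a : ℚ) ^ 3 - 27 * (b : ℚ) ^ 2) * (u : ℚ) ^ 12) := by
        rw [hrq]
    _ = _ := by ring

theorem isPer {W : WeierstrassCurve ℤ} {a b u : ℤ} (h0 : W.Δ ≠ 0) (hu : u = 1 ∨ u = 3)
    (ha : a * u ^ 4 = 27 * W.c₄) (hb : b * u ^ 6 = 54 * W.c₆) (τ : UpperHalfPlane) :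
    IsPeriod (W.c₄, W.c₆) τ ↔ Pool.Agent.N906.FH.IsPer a b τ := by
  unfold IsPeriod Pool.Agent.N906.FH.IsPer
  rw [jE_eq h0 hu ha hb]
  simp only
  rw [j_eq]
  exact Iff.rfl

theorem height_eq {W : WeierstrassCurve ℤ} (hW : Semistable W) (τ : UpperHalfPlane) :
    height (W.c₄, W.c₆) τ = (Real.log |((W.Δ : ℤ) : ℝ)| + arch τ) / 12 := by
  unfold height
  simp only
  rw [j_eq]
  have h := den_eq hW
  have h2 : ((((W.c₄ : ℤ) : ℚ) ^ 3 / ((W.Δ : ℤ) : ℚ)).den : ℝ) = |((W.Δ : ℤ) : ℝ)| := by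
    have h3 : (((((W.c₄ : ℤ) : ℚ) ^ 3 / ((W.Δ : ℤ) : ℚ)).den : ℤ) : ℝ) = ((|W.Δ| : ℤ) : ℝ) := by
      rw [h]
    rw [Int.cast_natCast] at h3
    rw [h3, Int.cast_abs]
  rw [h2]

theorem cond_rdD (W : WeierstrassCurve ℤ) : cond W.Δ = Pool.Agent.N906.SS.rdD W := rfl

theorem viol_fin (κ c X : ℝ) : (Violators κ c X).Finite := by
  refine (Pool.Agent.N906.SZ.box_fin X).subset ?_
  rintro _ ⟨W, -, rfl, h4, h6, -⟩
  exact ⟨h4, h6⟩

/-- a violator satisfies `N ≤ K max(|a|³, |D|) ^ (1/σ)` -/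
theorem cand {κ : ℝ} (h1 : 1 / 12 < κ) (c : ℝ) :
    ∃ K : ℝ, 1 ≤ K ∧ ∀ X : ℝ, ∀ q ∈ Violators κ c X, ∃ W : WeierstrassCurve ℤ, W.Δ ≠ 0 ∧
      IsCoprime W.c₄ W.Δ ∧ q = (W.c₄, W.c₆) ∧ |(W.c₄ : ℝ)| ≤ X ^ 2 ∧ |(W.c₆ : ℝ)| ≤ X ^ 3 ∧
      ∀ a b u : ℤ, (u = 1 ∨ u = 3) → a * u ^ 4 = 27 * W.c₄ → b * u ^ 6 = 54 * W.c₆ →
        (cond W.Δ : ℝ) ≤ K * Pool.Agent.N906.FH.Mx a b ^ (1 / (12 * κ)) := by
  obtain ⟨C₁, hC₁⟩ := Pool.Agent.N195.FH.arch_bds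
  have hσ1 : 1 < 12 * κ := by linarith
  refine ⟨Real.exp (|C₁ - 12 * c| / (12 * κ)), Real.one_le_exp (by positivity), ?_⟩
  rintro X _ ⟨W, hW, rfl, g2, g3, τ, hτ, hh⟩
  refine ⟨W, hW.1, hW.2, rfl, g2, g3, fun a b u hu ha hb => ?_⟩
  have hD := Pool.Agent.Run7.h585.AN.Semi.dd_ne hW.1 ha hb
  have k1 := ((hC₁ a b hD).2 τ ((isPer hW.1 hu ha hb τ).1 hτ)).2.2
  rw [height_eq hW] at hh
  have hle := Pool.Agent.N265.SS.disc_le hu ha hb
  have hpos : (0 : ℝ) < |((W.Δ : ℤ) : ℝ)| := abs_pos.2 (by exact_mod_cast hW.1)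
  have hlog := Real.log_le_log hpos hle
  have hc0 : 0 < cond W.Δ := Finset.prod_pos fun p hp => (Nat.prime_of_mem_primeFactors hp).pos
  have e : 1 / (12 * κ) = 1 - (1 - 1 / (12 * κ)) := by ring
  rw [e]
  have hκ : 0 < κ := by linarith
  have k4 : arch τ = Pool.Agent.N906.FH.arch τ := rfl
  rw [k4] at hh
  exact Pool.Agent.N906.FH.from_log hσ1 rfl (by exact_mod_cast hc0)
    (Pool.Agent.N906.FH.Mx_pos hD) (by linarith)

theorem cand2 {κ K : ℝ}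
    {W : WeierstrassCurve ℤ} (h0 : W.Δ ≠ 0) (hco : IsCoprime W.c₄ W.Δ) {a b u : ℤ}
    (hu : u = 1 ∨ u = 3) (ha : a * u ^ 4 = 27 * W.c₄) (hb : b * u ^ 6 = 54 * W.c₆)
    (h : (cond W.Δ : ℝ) ≤ K * Pool.Agent.N906.FH.Mx a b ^ (1 / (12 * κ))) :
    (Pool.Agent.N906.SZ.Nc a b : ℝ) ≤ K * Pool.Agent.N906.FH.Mx a b ^ (1 / (12 * κ)) := by
  refine le_trans ?_ h
  exact_mod_cast Pool.Agent.N265.SS.nc_le h0 hco hu ha hb

/-- a model with `u = 1` -/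
theorem model (W : WeierstrassCurve ℤ) : (27 * W.c₄) * (1 : ℤ) ^ 4 = 27 * W.c₄ ∧
    (54 * W.c₆) * (1 : ℤ) ^ 6 = 54 * W.c₆ := by
  constructor <;> ring

/-- the lower bound -/
theorem many {κ : ℝ} (h1 : 1 / 12 < κ) (c : ℝ) :
    ∃ A : ℝ, 1 ≤ A ∧ ∀ X : ℝ, 31 ≤ X → ∀ x : ℤ × ℤ, (Pool.Agent.N906.SS.Wm x).Δ ≠ 0 →
      IsCoprime (Pool.Agent.N906.SS.Wm x).c₄ (Pool.Agent.N906.SS.Wm x).Δ →
      |((Pool.Agent.N906.SS.Wm x).c₄ : ℝ)| ≤ X ^ 2 → |((Pool.Agent.N906.SS.Wm x).c₆ : ℝ)| ≤ X ^ 3 →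
      A * (Pool.Agent.N906.SS.rdD (Pool.Agent.N906.SS.Wm x) : ℝ) *
        |((Pool.Agent.N906.SS.Wm x).Δ : ℝ)| ^ (1 - 1 / (12 * κ)) ≤
          |((Pool.Agent.N906.SS.Wm x).Δ : ℝ)| →
      ((Pool.Agent.N906.SS.Wm x).c₄, (Pool.Agent.N906.SS.Wm x).c₆) ∈ Violators κ c X := by
  obtain ⟨C₁, hC₁⟩ := Pool.Agent.N195.FH.arch_bds
  have hσ1 : 1 < 12 * κ := by linarith
  obtain ⟨A, hA1, hA⟩ := Pool.Agent.N906.FH.cond_low hσ1 rfl 1 (C₁ + 12 * c) le_rfl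
  refine ⟨A, hA1, fun X _ x h0 hco h4 h6 h => ?_⟩
  have hW : Semistable (Pool.Agent.N906.SS.Wm x) := ⟨h0, hco⟩
  have hm := model (Pool.Agent.N906.SS.Wm x)
  have hD := Pool.Agent.Run7.h585.AN.Semi.dd_ne h0 hm.1 hm.2
  obtain ⟨⟨τ, hτ⟩, hτ2⟩ := hC₁ _ _ hD
  have k1 := (hτ2 τ hτ).1
  refine ⟨_, hW, rfl, h4, h6, τ, (isPer h0 (Or.inl rfl) hm.1 hm.2 τ).2 hτ, ?_⟩
  rw [height_eq hW]
  have hpos : (0 : ℝ) < |(((Pool.Agent.N906.SS.Wm x).Δ : ℤ) : ℝ)| :=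
    abs_pos.2 (by exact_mod_cast h0)
  have hc0 : 0 < cond (Pool.Agent.N906.SS.Wm x).Δ :=
    Finset.prod_pos fun p hp => (Nat.prime_of_mem_primeFactors hp).pos
  have hc1 : (1 : ℝ) ≤ Pool.Agent.N906.SS.rdD (Pool.Agent.N906.SS.Wm x) := by
    rw [← cond_rdD]
    exact_mod_cast hc0
  have k3 := hA _ _ (Pool.Agent.N906.SS.rdD (Pool.Agent.N906.SS.Wm x)) hc1 hpos le_rfl
    (by rw [one_mul]) h
  have k4 : arch τ = Pool.Agent.N906.FH.arch τ := rfl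
  rw [k4, cond_rdD]
  linarith

/-- the typical curves of the general theorem are typical -/
theorem typical_of {κ : ℝ} (h1 : 1 / 12 < κ) (h2 : κ < 1 / 10) {ε : ℝ} (hε : 0 < ε) (K : ℝ)
    (hK : 1 ≤ K) : ∀ᶠ X : ℝ in atTop, ∀ W : WeierstrassCurve ℤ, W.Δ ≠ 0 → IsCoprime W.c₄ W.Δ →
      |(W.c₄ : ℝ)| ≤ X ^ 2 → |(W.c₆ : ℝ)| ≤ X ^ 3 →
      (cond W.Δ : ℝ) ≤ K * Pool.Agent.N906.FH.Mx (27 * W.c₄) (54 * W.c₆) ^ (1 / (12 * κ)) →
      Pool.Agent.Run7.h585.AN.Semi.TypD (12 * κ) (ε / 2) X W.Δ → Typical κ ε X (W.c₄, W.c₆) := by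
  obtain ⟨C₁, hC₁⟩ := Pool.Agent.N195.FH.arch_bds
  have hκ : 0 < κ := by linarith
  obtain ⟨M, hM⟩ : ∃ M : ℝ, M = 64 * 6 ^ 6 := ⟨_, rfl⟩
  have hM1 : 1 ≤ M := by rw [hM]; norm_num
  have hl : ∀ᶠ X : ℝ in atTop, (|C₁| + Real.log M + Real.log (M * K)) / (ε / 2) ≤ Real.log X :=
    Real.tendsto_log_atTop.eventually_ge_atTop _
  filter_upwards [hl, eventually_ge_atTop (31 : ℝ)] with X hX hX31 W h0 hco h4 h6 hN ht
  have hX0 : 0 < X := by linarith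
  have hX1 : 1 ≤ X := by linarith
  obtain ⟨t1, t2, t3, t4⟩ := ht
  have hm := model W
  have hD := Pool.Agent.Run7.h585.AN.Semi.dd_ne h0 hm.1 hm.2
  have e1 : 6 / (12 * κ) = 1 / (2 * κ) := by field_simp; norm_num
  have e2 : 12 * (1 - 1 / (12 * κ)) = 12 - 1 / κ := by field_simp
  rw [e1] at t2
  rw [e2] at t4
  have hsc : 0 ≤ scale X := Real.sqrt_nonneg _
  have hlog : 0 < Real.log X := Real.log_pos (by linarith)
  have hlK : 0 ≤ Real.log (M * K) := Real.log_nonneg (by nlinarith)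
  have hlM0 : 0 ≤ Real.log M := Real.log_nonneg hM1
  rw [div_le_iff₀ (by positivity)] at hX
  have hDp : (0 : ℝ) < |((W.Δ : ℤ) : ℝ)| := abs_pos.2 (by exact_mod_cast h0)
  obtain ⟨k1, k2⟩ := Pool.Agent.N265.SS.box (Or.inl rfl) hm.1 hm.2 hX0.le h4 h6
  have hMx0 : 0 < Pool.Agent.N906.FH.Mx (27 * W.c₄) (54 * W.c₆) := Pool.Agent.N906.FH.Mx_pos hD
  have hMx : Pool.Agent.N906.FH.Mx (27 * W.c₄) (54 * W.c₆) ≤ M * X ^ 6 := by
    refine (Pool.Agent.N692.FH.upg_mx k1 k2).trans (le_of_eq ?_)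
    rw [hM]; ring
  have hlM : Real.log (Pool.Agent.N906.FH.Mx (27 * W.c₄) (54 * W.c₆)) ≤
      Real.log M + 6 * Real.log X := by
    have h := Real.log_le_log hMx0 hMx
    rw [Real.log_mul (by linarith) (by positivity), Real.log_pow] at h
    push_cast at h
    linarith
  have hlD : (6 - ε / 2) * Real.log X ≤ Real.log |((W.Δ : ℤ) : ℝ)| := by
    have h := Real.log_le_log (by positivity) t1
    rwa [Real.log_rpow hX0] at h
  have hle := Real.log_le_log hDp (Pool.Agent.N265.SS.disc_le (Or.inl rfl) hm.1 hm.2)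
  unfold Typical
  rw [disc_eq]
  refine ⟨?_, ?_, ?_, ?_, ?_, ?_⟩
  · exact (Real.rpow_le_rpow_of_exponent_le hX1 (by linarith)).trans t1
  · intro τ hτ
    obtain ⟨m1, -, m3⟩ := (hC₁ _ _ hD).2 τ ((isPer h0 (Or.inl rfl) hm.1 hm.2 τ).1 hτ)
    have k4 : |arch τ| = |Pool.Agent.N906.FH.arch τ| := rfl
    have k5 := le_abs_self C₁
    have k6 : 0 ≤ ε / 2 * Real.log X := by positivity
    rw [k4, abs_le]
    constructor <;> linarith
  · exact (Real.rpow_le_rpow_of_exponent_le hX1 (by linarith)).trans t2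
  · have h3 : (cond W.Δ : ℝ) ≤ M * K * X ^ (1 / (2 * κ)) := by
      refine hN.trans ?_
      have h12 : 0 < 1 / (12 * κ) := by positivity
      have h13 : 1 / (12 * κ) ≤ 1 := by rw [div_le_one (by positivity)]; linarith
      calc K * Pool.Agent.N906.FH.Mx (27 * W.c₄) (54 * W.c₆) ^ (1 / (12 * κ))
          ≤ K * (M * X ^ 6) ^ (1 / (12 * κ)) := by
            apply mul_le_mul_of_nonneg_left _ (by linarith)
            exact Real.rpow_le_rpow hMx0.le hMx h12.le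
        _ = K * M ^ (1 / (12 * κ)) * X ^ (1 / (2 * κ)) := by
            rw [Real.mul_rpow (by linarith) (by positivity), ← Real.rpow_natCast X 6,
              ← Real.rpow_mul hX0.le, show ((6 : ℕ) : ℝ) * (1 / (12 * κ)) = 1 / (2 * κ) by
                rw [← e1]; push_cast; ring]
            ring
        _ ≤ K * M * X ^ (1 / (2 * κ)) := by
            apply mul_le_mul_of_nonneg_right _ (by positivity)
            apply mul_le_mul_of_nonneg_left _ (by linarith)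
            calc M ^ (1 / (12 * κ)) ≤ M ^ (1 : ℝ) :=
                  Real.rpow_le_rpow_of_exponent_le hM1 h13
              _ = M := Real.rpow_one M
        _ = _ := by ring
    have h4' : M * K ≤ X ^ ε := by
      rw [Real.rpow_def_of_pos hX0, ← Real.log_le_iff_le_exp (by nlinarith)]
      have : 0 ≤ |C₁| := abs_nonneg _
      have k6 : 0 ≤ ε / 2 * Real.log X := by positivity
      linarith
    calc (cond W.Δ : ℝ) ≤ M * K * X ^ (1 / (2 * κ)) := h3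
      _ ≤ X ^ ε * X ^ (1 / (2 * κ)) := mul_le_mul_of_nonneg_right h4' (by positivity)
      _ = X ^ (1 / (2 * κ) + ε) := by rw [← Real.rpow_add hX0]; congr 1; ring
  · exact t3.trans (Real.rpow_le_rpow_of_exponent_le hX1 (by linarith))
  · intro y hy
    refine (t4 y hy).trans ?_
    exact mul_le_mul_of_nonneg_right (by linarith) hsc

/-- the number of the violators -/
theorem count {κ : ℝ} (h1 : 1 / 12 < κ) (h2 : κ < 1 / 10) (c : ℝ) :
    Tendsto (fun X : ℝ => (Real.log ((Violators κ c X).ncard : ℝ) -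
      (1 / (2 * κ) - 1) * Real.log X) / √(Real.log X / Real.log (Real.log X))) atTop
      (𝓝 √(48 - 4 / κ)) := by
  have hκ : 0 < κ := by linarith
  have e1 : 6 / (12 * κ) = 1 / (2 * κ) := by field_simp; norm_num
  have e2 : 48 * (1 - 1 / (12 * κ)) = 48 - 4 / κ := by field_simp; ring
  obtain ⟨K, hK, hV⟩ := cand h1 c
  rw [← e1, ← e2]
  exact Pool.Agent.Run7.h585.AN.Semi.lim_semi (σ := 12 * κ) (by linarith) (by linarith) K hK
    (fun X => Violators κ c X) (fun X => viol_fin κ c X) (fun X _ q hq => by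
      obtain ⟨W, g0, g1, g2, g3, g4, g5⟩ := hV X q hq
      exact ⟨W, g0, g1, g2, g3, g4, fun a b u hu ha hb => cand2 g0 g1 hu ha hb
        (g5 a b u hu ha hb)⟩) (many h1 c)

/-- **Theorem.** Let `1/12 < κ < 1/10`, `c` real and `ε > 0`. The number of the semistable elliptic curves over `ℚ` with
`|c₄| ≤ X²`, `|c₆| ≤ X³` and `h_F ≥ κ log N + c` is
`X ^ (1/(2κ) - 1) exp ((√(48 - 4/κ) + o(1)) √(log X / log log X))`; and there is `δ > 0` such that, for all large `X`, they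
are typical up to the error `ε` with the exception of a proportion of at most `exp (- δ √(log X / log log X))`. -/
theorem result : ∀ κ c : ℝ, 1 / 12 < κ → κ < 1 / 10 →
    (∀ X : ℝ, (Violators κ c X).Finite) ∧
    Tendsto (fun X : ℝ => (Real.log ((Violators κ c X).ncard : ℝ) -
      (1 / (2 * κ) - 1) * Real.log X) / scale X) atTop (𝓝 √(48 - 4 / κ)) ∧
    ∀ ε : ℝ, 0 < ε → ∃ δ : ℝ, 0 < δ ∧ ∀ᶠ X : ℝ in atTop,
      (({q ∈ Violators κ c X | ¬ Typical κ ε X q} : Set (ℤ × ℤ)).ncard : ℝ) ≤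
        Real.exp (-(δ * scale X)) * ((Violators κ c X).ncard : ℝ) := by
  intro κ c h1 h2
  have hκ : 0 < κ := by linarith
  refine ⟨fun X => viol_fin κ c X, count h1 h2 c, fun ε hε => ?_⟩
  obtain ⟨K, hK, hV⟩ := cand h1 c
  have e1 : 6 / (12 * κ) = 1 / (2 * κ) := by field_simp; norm_num
  have e2 : 48 * (1 - 1 / (12 * κ)) = 48 - 4 / κ := by field_simp; ring
  have hlim' : Tendsto (fun X : ℝ => (Real.log ((Violators κ c X).ncard : ℝ) -
      (6 / (12 * κ) - 1) * Real.log X) / √(Real.log X / Real.log (Real.log X))) atTop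
      (𝓝 √(48 * (1 - 1 / (12 * κ)))) := by
    rw [e1, e2]
    exact count h1 h2 c
  obtain ⟨δ, hδ, h⟩ := Pool.Agent.Run7.h585.AN.Semi.fin_semi (σ := 12 * κ) (by linarith)
    (by linarith) K hK (fun X => Violators κ c X) (fun X => viol_fin κ c X) (fun X _ q hq => by
      obtain ⟨W, g0, g1, g2, g3, g4, g5⟩ := hV X q hq
      exact ⟨W, g0, g1, g2, g3, g4, fun a b u hu ha hb => cand2 g0 g1 hu ha hb
        (g5 a b u hu ha hb)⟩) hlim' (ε / 2) (by positivity)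
  refine ⟨δ, hδ, ?_⟩
  filter_upwards [h, typical_of h1 h2 hε K hK] with X hX hT
  refine le_trans ?_ hX.2
  have hsub : ({q ∈ Violators κ c X | ¬ Typical κ ε X q} : Set (ℤ × ℤ)) ⊆
      {q ∈ Violators κ c X | ¬ Pool.Agent.Run7.h585.AN.Semi.TypD (12 * κ) (ε / 2) X
        ((q.1 ^ 3 - q.2 ^ 2) / 1728)} := by
    rintro q ⟨hq1, hq2⟩
    refine ⟨hq1, fun ht => hq2 ?_⟩
    obtain ⟨W, g0, g1, rfl, g3, g4, g5⟩ := hV X q hq1
    have hm := model W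
    have e : ((W.c₄, W.c₆).1 ^ 3 - (W.c₄, W.c₆).2 ^ 2) / 1728 = W.Δ := disc_eq W
    rw [e] at ht
    exact hT W g0 g1 g3 g4 (g5 _ _ 1 (Or.inl rfl) hm.1 hm.2) ht
  have := Set.ncard_le_ncard hsub ((viol_fin κ c X).subset fun x hx => hx.1)
  exact_mod_cast this

end Pool.Agent.Results.MP_c59389_nt.TypicalSemistable
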