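import Mathlib
import Pool.Agent.Run7.h577.VR

/-!
# Frey's inequality for the stable height and all elliptic curves over `ℚ`: the exact exponent of the number of the violators

Frey's inequality is `h_F(A) ≤ κ log N_A + c`, `h_F` the stable Faltings height. We consider ALL elliptic curves
over `ℚ`, that is, all minimal models `y² = x³ - a x - b`, `|a| ≤ X²`, `|b| ≤ X³` (there are about `c X⁵` of them). The
number `V(X)` of the violators, `h_F(E) ≥ κ log N_E + c`, is `X ^ (1/(2κ) - 1 + o(1))` for every slope `1/12 < κ ≤ 1/8`, and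
at most `X ^ (3 + o(1))` for `κ ≥ 1/8`. (The exponent `1/(2κ) - 1` vanishes at `κ = 1/2`, the slope in Frey's
conjecture.)
-/

set_option autoImplicit false

namespace Pool.Agent.Results.MP_c59389_nt.ViolatorsExponent

open Filter Topology

/-- the discriminant of `x³ - a x - b` -/
def Disc (a b : ℤ) : ℤ := 4 * a ^ 3 - 27 * b ^ 2

/-- `y² = x³ - a x - b` is an elliptic curve and `|Disc|` is least among the integral models
`y² = x³ - a' x - b'`, `a' = u⁴ a`, `b' = u⁶ b`, `u ∈ ℚ^×`. Every elliptic curve over `ℚ` has exactly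
one such model. -/
def IsMinimal (a b : ℤ) : Prop :=
  Disc a b ≠ 0 ∧ ∀ (u : ℚ) (a' b' : ℤ), u ≠ 0 → (a' : ℚ) = u ^ 4 * a → (b' : ℚ) = u ^ 6 * b →
    |Disc a b| ≤ |Disc a' b'|

/-- the prime-to-6 part of the conductor of a minimal model: the product over the primes `p ≥ 5`
dividing `Disc` of `p` (multiplicative reduction: `p ∤ a`) or `p²` (additive reduction: `p ∣ a`) -/
def Cond6 (a b : ℤ) : ℕ :=
  ∏ p ∈ (Disc a b).natAbs.primeFactors.filter (fun p => 5 ≤ p), if (p : ℤ) ∣ a then p ^ 2 else p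

/-- `f` lies between `N₆` and a constant times `N₆` on the minimal models; for instance `f = N₆`, and
`f =` the conductor -/
def Admissible (f : ℤ × ℤ → ℝ) : Prop :=
  ∃ B : ℝ, ∀ q : ℤ × ℤ, IsMinimal q.1 q.2 →
    (Cond6 q.1 q.2 : ℝ) ≤ f q ∧ f q ≤ B * Cond6 q.1 q.2

/-- the curve `y² = x³ - a x - b` over `ℚ`, `q = (a, b)` -/
def E (q : ℤ × ℤ) : WeierstrassCurve ℚ := ⟨0, 0, 0, -(q.1 : ℚ), -(q.2 : ℚ)⟩

/-- the modular invariant `j(τ) = E₄(τ) ^ 3 / Δ(τ) = 1 / q + 744 + ⋯` -/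
noncomputable def jInv (τ : UpperHalfPlane) : ℂ :=
  ModularForm.E₄ τ ^ 3 / ModularForm.discriminant τ

/-- the archimedean term `- log (|Δ(τ)| (Im τ) ^ 6)` of the Faltings height -/
noncomputable def arch (τ : UpperHalfPlane) : ℝ :=
  -Real.log (‖ModularForm.discriminant τ‖ * τ.im ^ 6)

/-- `E(ℂ)` is isomorphic to `ℂ / (ℤ + ℤ τ)`: `j(τ) = c₄³ / Δ` is the invariant of `E` -/
def IsPeriod (q : ℤ × ℤ) (τ : UpperHalfPlane) : Prop :=
  jInv τ = (((E q).c₄ ^ 3 / (E q).Δ : ℚ) : ℂ)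

/-- The stable Faltings height (up to an additive constant which depends on the normalisation only):
`12 h_F(E)` is the logarithm of the stable minimal discriminant, that is of the denominator of the invariant
`c₄³ / Δ`, plus the archimedean term at a period `τ` of the curve. -/
noncomputable def height (q : ℤ × ℤ) (τ : UpperHalfPlane) : ℝ :=
  (Real.log (((E q).c₄ ^ 3 / (E q).Δ).den : ℝ) + arch τ) / 12

/-- the minimal models with `|a| ≤ X²`, `|b| ≤ X³` which violate `h_F(E) < κ log f + c` -/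
def Violators (f : ℤ × ℤ → ℝ) (κ c X : ℝ) : Set (ℤ × ℤ) :=
  {q | IsMinimal q.1 q.2 ∧ |(q.1 : ℝ)| ≤ X ^ 2 ∧ |(q.2 : ℝ)| ≤ X ^ 3 ∧
    ∃ τ, IsPeriod q τ ∧ κ * Real.log (f q) + c ≤ height q τ}

theorem hm (a b : ℤ) : IsMinimal a b ↔ Run7.h577.V.Mn a b :=
  Pool.Agent.N157.SZ.isMinimal_iff a b

theorem viol_eq (f : ℤ × ℤ → ℝ) (κ c X : ℝ) :
    Violators f κ c X = Run7.h577.V.HSt (fun a b => f (a, b)) κ c X := by
  ext q
  exact and_congr (hm _ _) Iff.rfl

/-- **Theorem.** Let `f` be admissible (for instance the conductor) and `c` real. (1) For all `κ > 1/12` and `ε > 0`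
there is `K` such that for every `X ≥ 1` at most `K X ^ (max (1/(2κ) - 1) 3 + ε)` minimal models of elliptic curves over
`ℚ` with `|a| ≤ X²`, `|b| ≤ X³` have stable height `h_F ≥ κ log f + c`. (2) For `1/12 < κ ≤ 1/8` the number of these curves
is `X ^ (1/(2κ) - 1 + o(1))`. -/
theorem result : ∀ f : ℤ × ℤ → ℝ, Admissible f → ∀ c : ℝ,
    (∀ κ ε : ℝ, 1 / 12 < κ → 0 < ε → ∃ K : ℝ, ∀ X : ℝ, 1 ≤ X → (Violators f κ c X).Finite ∧
      ((Violators f κ c X).ncard : ℝ) ≤ K * X ^ (max (1 / (2 * κ) - 1) 3 + ε)) ∧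
    (∀ κ : ℝ, 1 / 12 < κ → κ ≤ 1 / 8 →
      Tendsto (fun X : ℝ => Real.log ((Violators f κ c X).ncard : ℝ) / Real.log X) atTop
        (𝓝 (1 / (2 * κ) - 1))) := by
  intro f hf c
  obtain ⟨B, hB⟩ := hf
  have hB' : ∀ a b, Run7.h577.V.Mn a b → (Run7.h577.V.Cond6 a b : ℝ) ≤ f (a, b) ∧
      f (a, b) ≤ max B 1 * (Run7.h577.V.Cond6 a b : ℝ) := by
    intro a b hab
    obtain ⟨g1, g2⟩ := hB (a, b) ((hm a b).2 hab)
    refine ⟨g1, g2.trans ?_⟩
    have : (0 : ℝ) ≤ (Cond6 a b : ℝ) := Nat.cast_nonneg _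
    exact mul_le_mul_of_nonneg_right (le_max_left _ _) this
  have hσe : ∀ κ : ℝ, 0 < κ → 6 / (12 * κ) - 1 = 1 / (2 * κ) - 1 := by
    intro κ hκ
    have : (6 : ℝ) / (12 * κ) = 1 / (2 * κ) := by
      rw [div_eq_div_iff (by positivity) (by positivity)]
      ring
    rw [this]
  refine ⟨?_, ?_⟩
  · intro κ ε hκ hε
    have hκ0 : 0 < κ := by linarith
    obtain ⟨C, hC, hsub⟩ := Run7.h577.V.HSt_sub (f := fun a b => f (a, b))
      (fun a b hab => (hB' a b hab).1) c hκ0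
    obtain ⟨K, hK, h⟩ := Run7.h577.V.all_up ε (12 * κ) C hε (by positivity) hC
    refine ⟨K, fun X hX => ?_⟩
    have hfin := Run7.h577.V.curvH_fin (12 * κ) C X
    rw [viol_eq]
    refine ⟨hfin.subset (hsub X), ?_⟩
    have h1 := h X hX
    rw [hσe κ hκ0] at h1
    refine le_trans ?_ h1
    exact_mod_cast Set.ncard_le_ncard (hsub X) hfin
  · intro κ hκ hκ2
    have hκ0 : 0 < κ := by linarith
    obtain ⟨C, hC, hsub⟩ := Run7.h577.V.HSt_sub (f := fun a b => f (a, b))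
      (fun a b hab => (hB' a b hab).1) c hκ0
    obtain ⟨C', hC', hlow⟩ := Run7.h577.V.sub_HSt (f := fun a b => f (a, b)) (le_max_right B 1) hB' c hκ0
    simp only [viol_eq]
    have h := Run7.h577.V.exp_gen (12 * κ) C (by linarith) (by linarith) hC
      (fun X => Run7.h577.V.HSt (fun a b => f (a, b)) κ c X) hsub (by
        intro κ' h1 h2
        obtain ⟨c', hc', X₀, h3⟩ := Run7.h577.V.curvS_low (12 * κ) C' κ' (by linarith) h1 h2 hC'
        refine ⟨c', hc', X₀, fun X hX => (h3 X hX).trans ?_⟩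
        exact_mod_cast Set.ncard_le_ncard (hlow X)
          ((Run7.h577.V.curvH_fin (12 * κ) C X).subset (hsub X)))
    rw [hσe κ hκ0] at h
    exact h

end Pool.Agent.Results.MP_c59389_nt.ViolatorsExponent
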